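import Mathlib

namespace CHR.Lens

open Metric Set Filter Topology

/-- some power of a unit complex number is near `1` -/
theorem pow_near {u : ℂ} (hu : ‖u‖ = 1) {e : ℝ} (he : 0 < e) :
    ∃ m : ℕ, 3 ≤ m ∧ ‖u ^ m - 1‖ < e := by
  have hmem : ∀ n : ℕ, u ^ (3 * n) ∈ sphere (0 : ℂ) 1 := by
    intro n
    rw [mem_sphere_zero_iff_norm, norm_pow, hu, one_pow]
  obtain ⟨x, -, φ, hφ, hlim⟩ := (isCompact_sphere (0 : ℂ) 1).tendsto_subseq hmem
  have hcau := hlim.cauchySeq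
  obtain ⟨N, hN⟩ := Metric.cauchySeq_iff.1 hcau e he
  have h1 := hN (N + 1) (by omega) N le_rfl
  have hlt : φ N < φ (N + 1) := hφ (Nat.lt_succ_self N)
  refine ⟨3 * (φ (N + 1) - φ N), by omega, ?_⟩
  have h2 : u ^ (3 * φ (N + 1)) = u ^ (3 * φ N) * u ^ (3 * (φ (N + 1) - φ N)) := by
    rw [← pow_add]
    congr 1
    omega
  have h3 : dist (u ^ (3 * φ (N + 1))) (u ^ (3 * φ N)) < e := h1
  rw [dist_eq_norm, h2] at h3
  have h4 : u ^ (3 * φ N) * u ^ (3 * (φ (N + 1) - φ N)) - u ^ (3 * φ N)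
      = u ^ (3 * φ N) * (u ^ (3 * (φ (N + 1) - φ N)) - 1) := by ring
  rw [h4, norm_mul, norm_pow, hu, one_pow, one_mul] at h3
  exact h3

/-- the boundary points of the right lens -/
theorem arc_pow {q : ℂ} (_h1 : ‖q - 1‖ ≤ 1) (h2 : ‖q - 2‖ ≤ 1)
    (h : ‖q - 1‖ = 1 ∨ ‖q - 2‖ = 1) (hq1 : q ≠ 1) (hq2 : q ≠ 2) :
    ∃ m : ℕ, 3 ≤ m ∧ ‖1 - (2 - q) ^ m‖ < ‖q - 1‖ ^ 2 := by
  have hp1 : 0 < ‖q - 1‖ := norm_pos_iff.2 (sub_ne_zero.2 hq1)
  rcases h with h | h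
  · -- `|q - 1| = 1`
    set z : ℂ := 2 - q with hz
    have h0 : z ≠ 0 := fun h' => hq2 (sub_eq_zero.1 h').symm
    have hpos : 0 < ‖z‖ := norm_pos_iff.2 h0
    have hle : ‖z‖ ≤ 1 := by rw [hz, norm_sub_rev]; exact h2
    set r : ℝ := ‖z‖ with hr
    set u : ℂ := z / (r : ℂ) with hu
    have hr0 : (r : ℂ) ≠ 0 := by exact_mod_cast hpos.ne'
    have hun : ‖u‖ = 1 := by
      rw [hu, norm_div, Complex.norm_real, Real.norm_eq_abs, abs_of_pos hpos, ← hr,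
        div_self hpos.ne']
    obtain ⟨m, hm, hlt⟩ := pow_near hun one_pos
    refine ⟨m, hm, ?_⟩
    rw [h, one_pow]
    have hzm : z ^ m = (r ^ m : ℝ) * u ^ m := by
      rw [hu, div_pow]
      push_cast
      field_simp
    have hr1 : r ^ m ≤ 1 := pow_le_one₀ hpos.le hle
    have hrm : 0 < r ^ m := pow_pos hpos m
    have h2 : 1 - z ^ m = ((1 - r ^ m : ℝ) : ℂ) + (r ^ m : ℝ) * (1 - u ^ m) := by
      rw [hzm]
      push_cast
      ring
    rw [h2]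
    refine (norm_add_le _ _).trans_lt ?_
    rw [norm_mul, Complex.norm_real, Complex.norm_real, Real.norm_eq_abs, Real.norm_eq_abs,
      abs_of_nonneg (by linarith), abs_of_pos hrm]
    have h3 : ‖1 - u ^ m‖ < 1 := by
      rw [norm_sub_rev]
      exact hlt
    nlinarith
  · -- `|q - 2| = 1`
    have hun : ‖2 - q‖ = 1 := by rw [norm_sub_rev]; exact h
    obtain ⟨m, hm, hlt⟩ := pow_near hun (e := ‖q - 1‖ ^ 2) (by positivity)
    refine ⟨m, hm, ?_⟩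
    rw [norm_sub_rev]
    exact hlt

end CHR.Lens
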