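import Mathlib

namespace CHR.Lens

/-- a multiple `(4 j + 1) η` in the range where the sine is larger than `1/2` -/
theorem exists_mult {η : ℝ} (h0 : 0 < η) (h1 : η < Real.pi / 6) :
    ∃ j : ℕ, 1 ≤ j ∧ Real.pi / 6 < (4 * j + 1) * η ∧ (4 * j + 1) * η < 5 * Real.pi / 6 := by
  have hex : ∃ j : ℕ, 1 ≤ j ∧ Real.pi / 6 < (4 * j + 1) * η := by
    obtain ⟨n, hn⟩ := exists_nat_gt (Real.pi / 6 / η)
    refine ⟨n + 1, by omega, ?_⟩
    rw [div_lt_iff₀ h0] at hn
    push_cast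
    nlinarith [Nat.cast_nonneg (α := ℝ) n]
  classical
  let j := Nat.find hex
  have hj := Nat.find_spec hex
  have hj1 : 1 ≤ j := hj.1
  refine ⟨j, hj1, hj.2, ?_⟩
  by_cases h : j = 1
  · rw [h]
    push_cast
    linarith
  · have h2 : ¬ (1 ≤ j - 1 ∧ Real.pi / 6 < (4 * ((j - 1 : ℕ) : ℝ) + 1) * η) :=
      Nat.find_min hex (by omega : j - 1 < j)
    have h3 : (4 * ((j - 1 : ℕ) : ℝ) + 1) * η ≤ Real.pi / 6 := by
      by_contra hc
      exact h2 ⟨by omega, not_le.1 hc⟩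
    have h4 : ((j - 1 : ℕ) : ℝ) = (j : ℝ) - 1 := by
      rw [Nat.cast_sub hj1, Nat.cast_one]
    rw [h4] at h3
    have h5 : (2 : ℝ) ≤ j := by exact_mod_cast (by omega : 2 ≤ j)
    have hpi := Real.pi_pos
    have h6 : 5 * η ≤ Real.pi / 6 := by nlinarith
    have h7 : (4 * (j : ℝ) + 1) * η = (4 * ((j : ℝ) - 1) + 1) * η + 4 * η := by ring
    rw [h7]
    linarith

theorem left_arc_pow {q : ℂ} (h0 : ‖q‖ = 1) (h1 : ‖q - 1‖ < 1) (hq1 : q ≠ 1) :
    ∃ k : ℕ, 3 ≤ k ∧ Odd k ∧ ‖1 - (1 - q) ^ k‖ < 1 := by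
  set w : ℂ := 1 - q with hw
  have hw0 : w ≠ 0 := fun h => hq1 (sub_eq_zero.1 h).symm
  have hr1 : ‖w‖ < 1 := by rw [hw, norm_sub_rev]; exact h1
  have hr0 : 0 < ‖w‖ := norm_pos_iff.2 hw0
  set r : ℝ := ‖w‖ with hr
  -- real part of w
  have hre : w.re = r ^ 2 / 2 := by
    have e1 : ‖q‖ ^ 2 = 1 := by rw [h0, one_pow]
    have e2 : q = 1 - w := by rw [hw]; ring
    rw [e2, Complex.sq_norm, Complex.normSq_apply] at e1
    have e3 : r ^ 2 = w.re * w.re + w.im * w.im := by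
      rw [hr, Complex.sq_norm, Complex.normSq_apply]
    simp only [Complex.sub_re, Complex.sub_im, Complex.one_re, Complex.one_im] at e1
    rw [e3]
    nlinarith
  set θ : ℝ := w.arg with hθ
  have hcos : Real.cos θ = r / 2 := by
    rw [hθ, Complex.cos_arg hw0, hre, ← hr]
    field_simp
  -- eta
  set η : ℝ := Real.pi / 2 - |θ| with hη
  have hcos' : Real.cos |θ| = r / 2 := by rw [Real.cos_abs, hcos]
  have hθabs : |θ| = Real.arccos (r / 2) := by
    rw [← hcos', Real.arccos_cos (abs_nonneg θ) (Complex.abs_arg_le_pi w)]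
  have hηpos : 0 < η := by
    rw [hη, hθabs]
    have := Real.arccos_lt_pi_div_two.2 (by linarith : 0 < r / 2)
    linarith
  have hηlt : η < Real.pi / 6 := by
    have h3 : Real.pi / 3 < |θ| := by
      rw [hθabs]
      have h4 : Real.pi / 3 = Real.arccos (1 / 2) := by
        rw [← Real.cos_pi_div_three, Real.arccos_cos (by positivity) (by linarith [Real.pi_pos])]
      rw [h4]
      exact Real.arccos_lt_arccos (by linarith) (by linarith) (by norm_num)
    rw [hη]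
    linarith
  obtain ⟨j, hj1, hlo, hhi⟩ := exists_mult hηpos hηlt
  refine ⟨4 * j + 1, by omega, ⟨2 * j, by ring⟩, ?_⟩
  set k : ℕ := 4 * j + 1 with hk
  have hkc : (k : ℝ) = 4 * j + 1 := by rw [hk]; push_cast; ring
  -- real part of the power
  have hpow : (w ^ k).re = r ^ k * Real.cos (k * θ) := by
    have e1 : w = (r : ℂ) * Complex.exp (θ * Complex.I) := by
      rw [hr, hθ]
      exact (Complex.norm_mul_exp_arg_mul_I w).symm
    have e2 : w ^ k = ((r ^ k : ℝ) : ℂ) * Complex.exp (((k * θ : ℝ) : ℂ) * Complex.I) := by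
      conv_lhs => rw [e1]
      rw [mul_pow, ← Complex.exp_nat_mul]
      push_cast
      congr 2
      ring
    rw [e2, Complex.re_ofReal_mul, Complex.exp_ofReal_mul_I_re]
  have hcosk : Real.cos (k * θ) = Real.sin (k * η) := by
    have e1 : Real.cos (k * θ) = Real.cos (k * |θ|) := by
      rcases abs_cases θ with ⟨h, _⟩ | ⟨h, _⟩
      · rw [h]
      · rw [h, mul_neg, Real.cos_neg]
    have e2 : (k : ℝ) * |θ| = (Real.pi / 2 - k * η) + (j : ℕ) * (2 * Real.pi) := by
      rw [hη, hkc]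
      ring
    rw [e1, e2, Real.cos_add_nat_mul_two_pi, Real.cos_pi_div_two_sub]
  have hsin : 1 / 2 < Real.sin (k * η) := by
    rw [hkc]
    set x : ℝ := (4 * (j : ℝ) + 1) * η with hx
    have hpi := Real.pi_pos
    rcases le_or_gt x (Real.pi / 2) with h | h
    · rw [← Real.sin_pi_div_six]
      exact Real.sin_lt_sin_of_lt_of_le_pi_div_two (by linarith) h hlo
    · rw [← Real.sin_pi_div_six, ← Real.sin_pi_sub x]
      exact Real.sin_lt_sin_of_lt_of_le_pi_div_two (by linarith) (by linarith) (by linarith)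
  have hrk0 : 0 < r ^ k := pow_pos hr0 k
  have hrk1 : r ^ k < 1 := pow_lt_one₀ hr0.le hr1 (by omega)
  have hreal : r ^ k / 2 < (w ^ k).re := by
    rw [hpow, hcosk]
    nlinarith
  have hsq : ‖1 - w ^ k‖ ^ 2 < 1 := by
    have e1 : ‖1 - w ^ k‖ ^ 2 = 1 - 2 * (w ^ k).re + ‖w ^ k‖ ^ 2 := by
      rw [Complex.sq_norm, Complex.sq_norm, Complex.normSq_apply, Complex.normSq_apply]
      simp only [Complex.sub_re, Complex.sub_im, Complex.one_re, Complex.one_im]
      ring
    rw [e1, norm_pow, ← hr]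
    nlinarith
  nlinarith [norm_nonneg (1 - w ^ k)]

end CHR.Lens
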