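import Pool.Agent.H66Lens.LeftArc
import Pool.Agent.H90Lens.Left

namespace CHR.Lens

open H37.Chrom

/-- The arc `|q| = 1`, `|q - 1| < 1`, `q ≠ 1` of the left lens is in the interior. -/
theorem left_interior {q : ℂ} (h0 : ‖q‖ = 1) (h1 : ‖q - 1‖ < 1) (hq1 : q ≠ 1) :
    q ∈ interior (closure rootSet) := by
  obtain ⟨k, hk, ⟨L, rfl⟩, hlt⟩ := left_arc_pow h0 h1 hq1
  have h2 : 1 < ‖q - 2‖ := by
    have h := parallelogram_law_with_norm ℂ (q - 1) 1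
    have e1 : q - 1 + 1 = q := by ring
    have e2 : q - 1 - 1 = q - 2 := by ring
    rw [e1, e2, norm_one, h0] at h
    have hp : 0 < ‖q - 1‖ := norm_pos_iff.2 (sub_ne_zero.2 hq1)
    nlinarith [norm_nonneg (q - 2)]
  rw [mem_interior]
  refine ⟨{z : ℂ | ‖z - 1‖ < 1} ∩ ({z : ℂ | 1 < ‖z - 2‖} ∩
    {z : ℂ | ‖1 - (1 - z) ^ (2 * L + 1)‖ < ‖z‖}), ?_, ?_, ?_⟩
  · rintro z ⟨hz1, hz2, hz3⟩
    have hz0 : z ≠ 0 := by
      rintro rfl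
      have h4 : ‖(0 : ℂ) - 1‖ < 1 := hz1
      rw [zero_sub, norm_neg, norm_one] at h4
      exact lt_irrefl _ h4
    exact CHR.Left.left_subset hz1 hz0 hz2 (by omega : 1 ≤ L) hz3
  · have o1 : IsOpen {z : ℂ | ‖z - 1‖ < 1} :=
      isOpen_lt (f := fun z : ℂ => ‖z - 1‖) (g := fun _ => (1 : ℝ)) (by fun_prop) (by fun_prop)
    have o2 : IsOpen {z : ℂ | 1 < ‖z - 2‖} :=
      isOpen_lt (f := fun _ : ℂ => (1 : ℝ)) (g := fun z => ‖z - 2‖) (by fun_prop) (by fun_prop)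
    have o3 : IsOpen {z : ℂ | ‖1 - (1 - z) ^ (2 * L + 1)‖ < ‖z‖} :=
      isOpen_lt (f := fun z : ℂ => ‖1 - (1 - z) ^ (2 * L + 1)‖) (g := fun z => ‖z‖)
        (by fun_prop) (by fun_prop)
    exact o1.inter (o2.inter o3)
  · refine ⟨h1, h2, ?_⟩
    show ‖1 - (1 - q) ^ (2 * L + 1)‖ < ‖q‖
    rw [h0]
    exact hlt

end CHR.Lens
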