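import Pool.Agent.CHR.Words

/-! Words with long gaps: blocks `C D^k` and `C D^a C D^k`. -/

namespace CHR.Lens

open CHR

variable {A : Type} [CommRing A]

/-- block `C D^k` (`false`) or `C D^a C D^k` (`true`) -/
def blkL (a k : ℕ) (b : Bool) : List Bool :=
  if b then (false :: List.replicate a true) ++ (false :: List.replicate k true)
  else false :: List.replicate k true

/-- the word with the blocks `bs` -/
def wordL (a k : ℕ) (bs : List Bool) : List Bool := (bs.map (blkL a k)).flatten

/-- signed matrix of the start of a block -/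
def YL (a : ℕ) (b : Bool) (q : A) : Matrix (Fin 3) (Fin 3) A :=
  if b then (-1 : A) ^ (a + 1) • (Bm false q * Bm true q ^ a * Bm false q) else Bm false q

/-- the main part of the partition function -/
def PhiL (a : ℕ) (bs : List Bool) (q x : A) : A :=
  ((bs.map (fun b => YL a b q * (V2 q + x • V1 q))).prod).trace

/-- geometric sums in `2 - q` -/
def SS (q : A) : ℕ → A
  | 0 => 0
  | n + 1 => 1 + (2 - q) * SS q n

/-- the amplitude of a block -/
def amp (a : ℕ) (b : Bool) (q : A) : A := if b then SS q (a + 2) else 1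

theorem SS_succ (q : A) (n : ℕ) : SS q (n + 1) = 1 + (2 - q) * SS q n := rfl

theorem SS_mul (q : A) (n : ℕ) : (q - 1) * SS q n = 1 - (2 - q) ^ n := by
  induction n with
  | zero => simp [SS]
  | succ n ih =>
    rw [SS_succ, mul_add, mul_one, mul_left_comm, ih, pow_succ]
    ring

theorem SS_map {B : Type} [CommRing B] (f : A →+* B) (q : A) (n : ℕ) :
    f (SS q n) = SS (f q) n := by
  induction n with
  | zero => simp [SS]
  | succ n ih => rw [SS_succ, SS_succ, map_add, map_one, map_mul, ih, map_sub, map_ofNat]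

/-- the sign of a block -/
def sgnL (a : ℕ) (b : Bool) : A := if b then (-1) ^ (a + 1) else 1

theorem sgnL_sq (a : ℕ) (b : Bool) : (sgnL a b : A) * sgnL a b = 1 := by
  cases b with
  | false => simp [sgnL]
  | true =>
    simp only [sgnL, if_true]
    rw [← mul_pow]; simp

theorem blk_prod (q : A) (a k : ℕ) (b : Bool) :
    ((q - 1) * ((-1) ^ k * sgnL a b)) • (((blkL a (k + 1) b).map (fun b => Bm b q)).prod) =
      YL a b q * (V2 q + (2 - q) ^ k • V1 q) := by
  have h3 : ((-1 : A) ^ k) * (-1) ^ k = 1 := by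
    rw [← mul_pow]; simp
  have h4 : ((-1 : A) ^ k) * (q - 2) ^ k = (2 - q) ^ k := by
    rw [← mul_pow]; congr 1; ring
  have hD : ((-1 : A) ^ k) • ((q - 1) • Bm true q ^ (k + 1)) = V2 q + (2 - q) ^ k • V1 q := by
    rw [Bm_true_pow, smul_sub, smul_smul, smul_smul, h4, pow_succ, ← mul_assoc, h3, one_mul,
      neg_one_smul, sub_neg_eq_add, add_comm]
  cases b with
  | false =>
    have h2 : ((blkL a (k + 1) false).map (fun b => Bm b q)).prod
        = Bm false q * Bm true q ^ (k + 1) := by
      simp [blkL]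
    rw [h2]
    have h5 : YL a false q = Bm false q := rfl
    rw [h5, ← hD]
    simp only [sgnL, Bool.false_eq_true, if_false, mul_one]
    rw [mul_smul_comm, mul_smul_comm, smul_smul, mul_comm]
  | true =>
    have h2 : ((blkL a (k + 1) true).map (fun b => Bm b q)).prod
        = (Bm false q * Bm true q ^ a * Bm false q) * Bm true q ^ (k + 1) := by
      simp [blkL, mul_assoc]
    rw [h2]
    have h5 : YL a true q = (-1 : A) ^ (a + 1) • (Bm false q * Bm true q ^ a * Bm false q) := rfl
    rw [h5, ← hD]
    simp only [sgnL, if_true]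
    rw [mul_smul_comm, mul_smul_comm, smul_mul_assoc, smul_smul, smul_smul]
    congr 1
    ring

theorem length_wordL (a k : ℕ) (bs : List Bool) :
    (wordL a k bs).length = (bs.map (fun b => (if b then a + 1 else 0) + 1 + k)).sum := by
  have h : ∀ b, (blkL a k b).length = (if b then a + 1 else 0) + 1 + k := by
    intro b
    cases b <;> simp [blkL] <;> omega
  rw [wordL, List.length_flatten, List.map_map]
  congr 1
  exact List.map_congr_left fun b _ => h b

theorem wordL_cons (a k : ℕ) (b : Bool) (bs : List Bool) :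
    wordL a k (b :: bs) = blkL a k b ++ wordL a k bs := by
  rw [wordL, List.map_cons, List.flatten_cons, ← wordL]

theorem words_prod (q : A) (a k : ℕ) (bs : List Bool) :
    ((q - 1) ^ bs.length * (-1) ^ (wordL a (k + 1) bs).length)
      • (((wordL a (k + 1) bs).map (fun b => Bm b q)).prod) =
      (bs.map (fun b => YL a b q * (V2 q + (2 - q) ^ k • V1 q))).prod := by
  induction bs with
  | nil => simp [wordL]
  | cons b bs ih =>
    have hs : (-1 : A) ^ (blkL a (k + 1) b).length = (-1) ^ k * sgnL a b := by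
      cases b with
      | false =>
        have : (blkL a (k + 1) false).length = k + 2 := by simp [blkL]
        rw [this, pow_add]
        simp [sgnL]
      | true =>
        have : (blkL a (k + 1) true).length = k + (a + 1) + 2 := by simp [blkL]; omega
        rw [this, pow_add, pow_add]
        simp [sgnL]
    rw [wordL_cons, List.map_append, List.prod_append, List.length_cons, List.map_cons,
      List.prod_cons, ← ih, ← blk_prod, List.length_append, pow_add (-1 : A), hs,
      smul_mul_smul_comm]
    congr 1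
    ring

theorem word_identity (a k : ℕ) (N : ℕ) (bs : List Bool) (hbs : bs.length = N + 1) (q : A) :
    (q - 1) ^ N * (-1) ^ (wordL a (k + 1) bs).length * Rw (wordL a (k + 1) bs) q =
      q * ((q - 1) ^ N * ((2 - q) ^ (wordL a (k + 1) bs).length + (q ^ 2 - 3 * q + 1)) +
        PhiL a bs q ((2 - q) ^ k)) := by
  have h1 := congrArg Matrix.trace (words_prod q a k bs)
  rw [Matrix.trace_smul, smul_eq_mul, hbs] at h1
  have h3 : ((-1 : A) ^ (wordL a (k + 1) bs).length) * (-1) ^ (wordL a (k + 1) bs).length = 1 := by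
    rw [← mul_pow]; simp
  have h4 : ((-1 : A) ^ (wordL a (k + 1) bs).length) * (q - 2) ^ (wordL a (k + 1) bs).length =
      (2 - q) ^ (wordL a (k + 1) bs).length := by
    rw [← mul_pow]; congr 1; ring
  rw [pow_succ] at h1
  rw [PhiL, ← h1, ← h4, Rw]
  linear_combination (q * (q - 1) ^ N * ((q - 2) + (q - 1) * (q - 3))) * h3

/-- row vector -/
def wl2 : Fin 3 → A := ![1, 0, -1]

/-- column vector -/
def wv2 (q : A) : Fin 3 → A := ![-(q - 2), 0, 1]

theorem words_V2 (q : A) : V2 q = Matrix.vecMulVec (wv2 q) wl2 := by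
  ext i j
  fin_cases i <;> fin_cases j <;> simp [V2, Matrix.vecMulVec, wv2, wl2]

theorem words_rank (a : ℕ) (q : A) (bs : List Bool) : ∀ b : Bool,
    (((b :: bs).map (fun b => YL a b q * V2 q)).prod) =
      (bs.map (fun b => wl2 ⬝ᵥ (YL a b q).mulVec (wv2 q))).prod •
        Matrix.vecMulVec ((YL a b q).mulVec (wv2 q)) wl2 := by
  induction bs with
  | nil =>
    intro b
    rw [List.map_cons, List.map_nil, List.prod_cons, List.prod_nil, mul_one, List.map_nil,
      List.prod_nil, one_smul, words_V2, Matrix.mul_vecMulVec]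
  | cons i bs ih =>
    intro b
    rw [List.map_cons, List.prod_cons, ih i, words_V2, Matrix.mul_vecMulVec, mul_smul_comm,
      Matrix.vecMulVec_mul_vecMulVec, List.map_cons, List.prod_cons]
    rw [Matrix.vecMulVec_smul, smul_smul, mul_comm]

/-- the row `l2 B_C B_D^a` -/
theorem row_pow (q : A) (a : ℕ) :
    Matrix.vecMul wl2 (Bm false q * Bm true q ^ (a + 1))
      = ![(-1) ^ a * SS q (a + 1), 0, (-1) ^ (a + 1) * SS q (a + 2)] := by
  induction a with
  | zero =>
    ext i
    fin_cases i
    · simp [Bm, wl2, Matrix.vecMul, dotProduct, Fin.sum_univ_three, SS, Matrix.mul_apply]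
      try ring
    · simp [Bm, wl2, Matrix.vecMul, dotProduct, Fin.sum_univ_three, SS, Matrix.mul_apply]
    · simp [Bm, wl2, Matrix.vecMul, dotProduct, Fin.sum_univ_three, SS, Matrix.mul_apply]
      ring
  | succ a ih =>
    rw [pow_succ, ← mul_assoc, ← Matrix.vecMul_vecMul, ih]
    ext i
    fin_cases i
    · simp [Bm, Matrix.vecMul, dotProduct, Fin.sum_univ_three]
    · simp [Bm, Matrix.vecMul, dotProduct, Fin.sum_univ_three]
    · simp [Bm, Matrix.vecMul, dotProduct, Fin.sum_univ_three, SS, pow_succ]
      ring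

theorem amp_eq (a : ℕ) (b : Bool) (q : A) : wl2 ⬝ᵥ (YL a b q).mulVec (wv2 q) = amp a b q := by
  cases b with
  | false =>
    simp [YL, amp, Bm, wl2, wv2, Matrix.mulVec, dotProduct, Fin.sum_univ_three]
    ring
  | true =>
    have hC : (Bm false q).mulVec (wv2 q) = ![q - 2, q - 2, q - 3] := by
      ext i
      fin_cases i <;> simp [Bm, wv2, Matrix.mulVec, dotProduct, Fin.sum_univ_three]
    have h1 : (YL a true q).mulVec (wv2 q)
        = (-1 : A) ^ (a + 1) • ((Bm false q * Bm true q ^ a).mulVec ![q - 2, q - 2, q - 3]) := by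
      rw [← hC, Matrix.mulVec_mulVec]
      simp only [YL, if_true]
      rw [Matrix.smul_mulVec]
    rw [h1, dotProduct_smul, Matrix.dotProduct_mulVec]
    have h3 : ((-1 : A) ^ a) * (-1) ^ a = 1 := by
      rw [← mul_pow]; simp
    cases a with
    | zero =>
      simp [amp, SS, Bm, wl2, Matrix.vecMul, dotProduct, Fin.sum_univ_three]
      ring
    | succ a =>
      rw [row_pow]
      have h4 : ((-1 : A) ^ a) * (-1) ^ a = 1 := by
        rw [← mul_pow]; simp
      have h5 : (![(-1) ^ a * SS q (a + 1), 0, (-1) ^ (a + 1) * SS q (a + 2)] : Fin 3 → A)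
          ⬝ᵥ ![q - 2, q - 2, q - 3]
          = (-1) ^ a * SS q (a + 1) * (q - 2) + (-1) ^ (a + 1) * SS q (a + 2) * (q - 3) := by
        simp [dotProduct, Fin.sum_univ_three]
      rw [h5]
      simp only [amp, if_true, smul_eq_mul]
      rw [SS_succ q (a + 2)]
      have h6 : (2 - q) * SS q (a + 1) = SS q (a + 2) - 1 := by
        rw [SS_succ q (a + 1)]; ring
      have h7 : (-1 : A) ^ (a + 1 + 1) * ((-1) ^ a * SS q (a + 1) * (q - 2)
          + (-1) ^ (a + 1) * SS q (a + 2) * (q - 3))
          = ((-1 : A) ^ a * (-1) ^ a) * (-((2 - q) * SS q (a + 1)) - SS q (a + 2) * (q - 3)) := by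
        rw [pow_succ, pow_succ]; ring
      rw [h7, h4, h6]
      ring

theorem Phi_zero (a : ℕ) (bs : List Bool) (hbs : bs ≠ []) (q : A) :
    PhiL a bs q 0 = (bs.map (fun b => amp a b q)).prod := by
  obtain ⟨b, bs', rfl⟩ : ∃ b bs', bs = b :: bs' := by
    cases bs with
    | nil => exact absurd rfl hbs
    | cons b bs' => exact ⟨b, bs', rfl⟩
  rw [PhiL]
  simp only [zero_smul, add_zero]
  rw [words_rank, Matrix.trace_smul, smul_eq_mul, Matrix.trace_vecMulVec, dotProduct_comm, amp_eq,
    List.map_cons, List.prod_cons, mul_comm]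
  simp only [amp_eq]

end CHR.Lens
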