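import Pool.Agent.CHR.Tie
import Pool.Agent.H66Lens.Words

/-! Zeros of the limit functions inside the lens. -/

namespace CHR.Lens

open CHR Metric Set Filter Topology Polynomial

theorem eval_SS (q : ℂ) (m : ℕ) : (SS (X : ℂ[X]) m).eval q = SS q m := by
  have h := SS_map (evalRingHom q) (X : ℂ[X]) m
  simpa using h

theorem SS_one (m : ℕ) : SS (1 : ℂ) m = m := by
  induction m with
  | zero => simp [SS]
  | succ m ih =>
    rw [SS_succ, ih]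
    push_cast
    ring

private lemma hasDerivAt_F {q : ℂ} (hq : q ≠ 1) :
    HasDerivAt (fun q : ℂ => (q - 1)⁻¹) (-1 / (q - 1) ^ 2) q :=
  ((hasDerivAt_id q).sub_const 1).inv (sub_ne_zero.2 hq)

private lemma hasDerivAt_G {q : ℂ} (hq : q ≠ 1) (P : ℂ[X]) :
    HasDerivAt (fun q : ℂ => P.eval q * (q - 1)⁻¹)
      (P.derivative.eval q * (q - 1)⁻¹ + P.eval q * (-1 / (q - 1) ^ 2)) q :=
  (P.hasDerivAt q).mul (hasDerivAt_F hq)

private lemma nondeg (q0 : ℂ) (P : ℂ[X]) (hP : P.eval 1 ≠ 0) (σ : ℝ) (hσ : 0 < σ) (δ : ℝ)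
    (hδ : 0 < δ) : ∃ q ∈ ball q0 δ,
      deriv (fun q : ℂ => (q - 1)⁻¹) q * (P.eval q * (q - 1)⁻¹) +
        (σ : ℂ) * (deriv (fun q : ℂ => P.eval q * (q - 1)⁻¹) q * (q - 1)⁻¹) ≠ 0 := by
  by_contra hcon
  push Not at hcon
  have h2 : ∀ q ∈ ball q0 δ \ {1},
      (C (σ : ℂ) * (P.derivative * (X - 1)) - C (1 + (σ : ℂ)) * P).eval q = 0 := by
    rintro q ⟨hq, hq1⟩
    have hq1' : q ≠ 1 := hq1
    have hq2 : q - 1 ≠ 0 := sub_ne_zero.2 hq1'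
    have h3 := hcon q hq
    rw [(hasDerivAt_F hq1').deriv, (hasDerivAt_G hq1' P).deriv] at h3
    simp only [eval_sub, eval_mul, eval_X, eval_one, eval_C]
    have h4 : -1 / (q - 1) ^ 2 * (P.eval q * (q - 1)⁻¹) +
        (σ : ℂ) * ((P.derivative.eval q * (q - 1)⁻¹ + P.eval q * (-1 / (q - 1) ^ 2)) *
          (q - 1)⁻¹) =
        ((σ : ℂ) * (P.derivative.eval q * (q - 1)) - (1 + (σ : ℂ)) * P.eval q) *
          ((q - 1)⁻¹) ^ 3 := by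
      field_simp
      ring
    rw [h4] at h3
    rcases mul_eq_zero.1 h3 with h5 | h5
    · exact h5
    · exact absurd (pow_eq_zero_iff (by norm_num) |>.1 h5) (inv_ne_zero hq2)
  have h3 : (ball q0 δ \ {1}).Infinite :=
    (infinite_of_mem_nhds q0 (ball_mem_nhds q0 hδ)).sdiff (finite_singleton 1)
  have h4 : C (σ : ℂ) * (P.derivative * (X - 1)) - C (1 + (σ : ℂ)) * P = 0 :=
    eq_zero_of_infinite_isRoot _ (h3.mono fun q hq => h2 q hq)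
  have h5 := congrArg (eval 1) h4
  simp only [eval_sub, eval_mul, eval_X, eval_one, eval_C, sub_self, mul_zero, zero_sub,
    eval_zero, neg_eq_zero] at h5
  rcases mul_eq_zero.1 h5 with h6 | h6
  · have h7 := congrArg Complex.re h6
    simp at h7
    linarith
  · exact hP h6

theorem lens_zero {q0 : ℂ} {m : ℕ} (hm : 1 ≤ m) (h0 : q0 ≠ 1) (h1 : ‖q0 - 1‖ < 1)
    (hlt : ‖1 - (2 - q0) ^ m‖ < ‖q0 - 1‖ ^ 2) (hS : SS q0 m ≠ 0)
    (h3 : q0 ^ 2 - 3 * q0 + 1 ≠ 0) {ε : ℝ} (hε : 0 < ε) :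
    ∃ s t, 2 ≤ s ∧ 2 ≤ t ∧ ∃ q1 : ℂ, ‖q1 - q0‖ < ε ∧
      (q1 - 1) ^ (s + t - 1) * (q1 ^ 2 - 3 * q1 + 1) + SS q1 m ^ t = 0 := by
  have hq01 : q0 - 1 ≠ 0 := sub_ne_zero.2 h0
  have hpos : 0 < ‖q0 - 1‖ := norm_pos_iff.2 hq01
  set c : ℂ := -(q0 ^ 2 - 3 * q0 + 1) * (q0 - 1)⁻¹ with hc
  have hc0 : c ≠ 0 := mul_ne_zero (neg_ne_zero.2 h3) (inv_ne_zero hq01)
  have hcT : ContinuousAt (fun q : ℂ => -(q ^ 2 - 3 * q + 1) * (q - 1)⁻¹) q0 := by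
    have : ContinuousAt (fun q : ℂ => (q - 1)⁻¹) q0 := (hasDerivAt_F h0).continuousAt
    fun_prop
  have hcG : ContinuousAt (fun q : ℂ => (SS (X : ℂ[X]) m).eval q * (q - 1)⁻¹) q0 :=
    (hasDerivAt_G h0 _).continuousAt
  have hF0 : (SS (X : ℂ[X]) m).eval q0 * (q0 - 1)⁻¹ ≠ 0 := by
    rw [eval_SS]
    exact mul_ne_zero hS (inv_ne_zero hq01)
  have hF1 : ‖(SS (X : ℂ[X]) m).eval q0 * (q0 - 1)⁻¹‖ < 1 := by
    rw [eval_SS, norm_mul, norm_inv, ← div_eq_mul_inv, div_lt_one hpos]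
    have h4 := congrArg norm (SS_mul q0 m)
    rw [norm_mul] at h4
    have h5 : ‖q0 - 1‖ * ‖SS q0 m‖ < ‖q0 - 1‖ * ‖q0 - 1‖ := by
      rw [h4, ← sq]
      exact hlt
    exact lt_of_mul_lt_mul_left h5 hpos.le
  have hG1 : 1 < ‖(q0 - 1)⁻¹‖ := by
    rw [norm_inv]
    exact (one_lt_inv₀ hpos).2 h1
  have ev1 : ∀ᶠ q in 𝓝 q0, q ≠ 1 := eventually_ne_nhds h0
  have ev2 : ∀ᶠ q in 𝓝 q0, (SS (X : ℂ[X]) m).eval q * (q - 1)⁻¹ ≠ 0 :=
    hcG.eventually_ne hF0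
  have ev3 : ∀ᶠ q in 𝓝 q0, ‖-(q ^ 2 - 3 * q + 1) * (q - 1)⁻¹ - c‖ < ‖c‖ / 2 := by
    have h4 := (hcT.sub_const c).norm
    have h5 : ‖-(q0 ^ 2 - 3 * q0 + 1) * (q0 - 1)⁻¹ - c‖ < ‖c‖ / 2 := by
      rw [← hc, sub_self, norm_zero]
      have := norm_pos_iff.2 hc0
      linarith
    exact h4.eventually_lt_const h5
  obtain ⟨r, hr, hb⟩ := Metric.eventually_nhds_iff_ball.1 (ev1.and (ev2.and ev3))
  obtain ⟨t, s, ht, hs, q1, hq1, he⟩ := tie (q0 := q0) (c := c) hr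
    (F := fun q => (SS (X : ℂ[X]) m).eval q * (q - 1)⁻¹) (G := fun q => (q - 1)⁻¹)
    (fun q hq => (hasDerivAt_G (hb q hq).1 _).differentiableAt.differentiableWithinAt)
    (fun q hq => (hasDerivAt_F (hb q hq).1).differentiableAt.differentiableWithinAt)
    (fun q hq => (hb q hq).2.1)
    (fun q hq => inv_ne_zero (sub_ne_zero.2 (hb q hq).1))
    hF1 hG1
    (nondeg q0 _ (by
      rw [eval_SS, SS_one]
      exact_mod_cast (by omega : m ≠ 0)))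
    hc0 0 (fun _ _ q => -(q ^ 2 - 3 * q + 1) * (q - 1)⁻¹)
    (fun s t _ _ q hq => by
      have : DifferentiableAt ℂ (fun q : ℂ => (q - 1)⁻¹) q :=
        (hasDerivAt_F (hb q hq).1).differentiableAt
      exact ((by fun_prop : DifferentiableAt ℂ (fun q : ℂ => -(q ^ 2 - 3 * q + 1)) q).mul
        this).differentiableWithinAt)
    (fun s t _ _ q hq => (hb q hq).2.2.le) (ε := min ε r) (lt_min hε hr) 2
  have hq1r : q1 ∈ ball q0 r := by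
    rw [mem_ball_iff_norm]
    exact hq1.trans_le (min_le_right _ _)
  have hne : q1 - 1 ≠ 0 := sub_ne_zero.2 (hb q1 hq1r).1
  refine ⟨s, t, hs, ht, q1, hq1.trans_le (min_le_left _ _), ?_⟩
  simp only [eval_SS, mul_pow, inv_pow] at he
  obtain ⟨n, hn⟩ : ∃ n, s + t = n + 1 := ⟨s + t - 1, by omega⟩
  have hn' : s + t - 1 = n := by omega
  rw [hn']
  have e1 : SS q1 m ^ t = SS q1 m ^ t * ((q1 - 1)⁻¹ ^ t * (q1 - 1)⁻¹ ^ s) *
      (q1 - 1) ^ (s + t) := by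
    rw [← pow_add, add_comm t s, mul_assoc, ← mul_pow, inv_mul_cancel₀ hne, one_pow, mul_one]
  have e2 : SS q1 m ^ t * ((q1 - 1)⁻¹ ^ t * (q1 - 1)⁻¹ ^ s) =
      -(q1 ^ 2 - 3 * q1 + 1) * (q1 - 1)⁻¹ := by
    rw [← he, inv_pow, inv_pow]
    ring
  rw [e1, e2, hn, pow_succ]
  field_simp
  ring

end CHR.Lens
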