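import Pool.Agent.H66Lens.Shape
import Pool.Agent.H66Lens.Zero
import Pool.Agent.CHR.RimCount
import Pool.Agent.H37.Chrom.Local

/-! Roots of two-hub rims near zeros of the limit functions inside the lens. -/

namespace CHR.Lens

open CHR H37.Chrom Metric Set

section maps

variable {A B : Type} [CommRing A] [CommRing B] (f : A →+* B)

private lemma V1_map (q : A) : (V1 q).map f = V1 (f q) := by
  have h2 : f 2 = 2 := map_ofNat f 2
  ext i j
  fin_cases i <;> fin_cases j <;> simp [V1, h2]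

private lemma V2_map (q : A) : (V2 q).map f = V2 (f q) := by
  have h2 : f 2 = 2 := map_ofNat f 2
  ext i j
  fin_cases i <;> fin_cases j <;> simp [V2, h2]

private lemma YL_map (a : ℕ) (b : Bool) (q : A) : f.mapMatrix (YL a b q) = YL a b (f q) := by
  cases b with
  | false => exact Bm_map f false q
  | true =>
    simp only [YL, if_true]
    have h : f.mapMatrix (Bm false q * Bm true q ^ a * Bm false q)
        = Bm false (f q) * Bm true (f q) ^ a * Bm false (f q) := by
      simp only [map_mul, map_pow, RingHom.mapMatrix_apply, Bm_map]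
    have h5 : f.mapMatrix ((-1 : A) ^ (a + 1) • (Bm false q * Bm true q ^ a * Bm false q))
        = (-1 : B) ^ (a + 1) • f.mapMatrix (Bm false q * Bm true q ^ a * Bm false q) := by
      generalize Bm false q * Bm true q ^ a * Bm false q = M
      ext i j
      simp
    rw [h5, h]

private lemma Phi_map (a : ℕ) (bs : List Bool) (q x : A) :
    f (PhiL a bs q x) = PhiL a bs (f q) (f x) := by
  have h : f.mapMatrix ((bs.map (fun b => YL a b q * (V2 q + x • V1 q))).prod) =
      (bs.map (fun b => YL a b (f q) * (V2 (f q) + f x • V1 (f q)))).prod := by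
    rw [map_list_prod, List.map_map]
    congr 1
    refine List.map_congr_left fun b _ => ?_
    rw [Function.comp_apply, map_mul, YL_map, map_add, RingHom.mapMatrix_apply, V2_map]
    congr 2
    rw [← V1_map, RingHom.mapMatrix_apply]
    ext a b
    simp
  rw [PhiL, PhiL, ← h, RingHom.mapMatrix_apply, Matrix.trace, Matrix.trace, map_sum]
  rfl

end maps

private lemma cont_Bm (b : Bool) : Continuous fun x : ℂ × ℂ × ℂ => Bm b x.1 := by
  refine continuous_matrix fun i j => ?_
  cases b <;> fin_cases i <;> fin_cases j <;> simp [Bm] <;> fun_prop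

private lemma cont_V1 : Continuous fun x : ℂ × ℂ × ℂ => V1 x.1 := by
  refine continuous_matrix fun i j => ?_
  fin_cases i <;> fin_cases j <;> simp [V1] <;> fun_prop

private lemma cont_V2 : Continuous fun x : ℂ × ℂ × ℂ => V2 x.1 := by
  refine continuous_matrix fun i j => ?_
  fin_cases i <;> fin_cases j <;> simp [V2] <;> fun_prop

private lemma cont_YL (a : ℕ) (b : Bool) : Continuous fun x : ℂ × ℂ × ℂ => YL a b x.1 := by
  have h0 := cont_Bm false
  have h1 := cont_Bm true
  cases b with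
  | false => exact h0
  | true =>
    simp only [YL, if_true]
    exact ((h0.matrix_mul (h1.pow a)).matrix_mul h0).const_smul ((-1 : ℂ) ^ (a + 1))

private lemma cont_Phi (a : ℕ) (bs : List Bool) :
    Continuous fun x : ℂ × ℂ × ℂ => PhiL a bs x.1 x.2.1 := by
  have h : Continuous fun x : ℂ × ℂ × ℂ =>
      (bs.map (fun b => YL a b x.1 * (V2 x.1 + x.2.1 • V1 x.1))).prod := by
    induction bs with
    | nil => simpa using continuous_const
    | cons b bs ih =>
      simp only [List.map_cons, List.prod_cons]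
      refine Continuous.matrix_mul (Continuous.matrix_mul (cont_YL a b) (cont_V2.add ?_)) ih
      exact (continuous_fst.comp continuous_snd).smul cont_V1
  simp only [PhiL]
  exact h.matrix_trace

open Polynomial in
theorem lens_local {q1 : ℂ} (h2 : ‖q1 - 2‖ < 1) {m s t : ℕ} (hm : 3 ≤ m) (hs : 2 ≤ s)
    (ht : 2 ≤ t) (h : (q1 - 1) ^ (s + t - 1) * (q1 ^ 2 - 3 * q1 + 1) + SS q1 m ^ t = 0)
    {ε : ℝ} (hε : 0 < ε) : ∃ q ∈ rootSet, ‖q - q1‖ < ε := by
  obtain ⟨a, rfl⟩ : ∃ a, m = a + 2 := ⟨m - 2, by omega⟩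
  have ha : 1 ≤ a := by omega
  set js : List Bool := List.replicate s false ++ List.replicate t true with hjs
  have hlen : js.length = s + t := by simp [hjs]
  set N := s + t - 1 with hN
  have hlN : js.length = N + 1 := by omega
  have hne : js ≠ [] := by
    intro h0
    rw [h0] at hlen
    simp at hlen
    omega
  have hPhi0 : ∀ q : ℂ, PhiL a js q 0 = SS q (a + 2) ^ t := by
    intro q
    rw [Phi_zero a js hne, hjs]
    simp [amp]
  set P : ℂ[X] := (X - 1) ^ N * (X ^ 2 - 3 * X + 1) + SS X (a + 2) ^ t with hP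
  have hPe : ∀ q : ℂ, P.eval q = (q - 1) ^ N * (q ^ 2 - 3 * q + 1) + SS q (a + 2) ^ t := by
    intro q
    rw [hP]
    simp [eval_SS]
  have hP0 : P ≠ 0 := by
    intro h0
    have h1 := hPe 1
    rw [h0, eval_zero, sub_self, zero_pow (by omega), zero_mul, zero_add, SS_one] at h1
    exact pow_ne_zero t (by exact_mod_cast (by omega : a + 2 ≠ 0)) h1.symm
  obtain ⟨δ, hδ, hδlt, hsph⟩ := exists_radius P hP0 q1
    (ε := min ε (1 - ‖q1 - 2‖)) (lt_min hε (by linarith))
  set K : Set ℂ := closedBall q1 δ with hKdef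
  have hK2 : ∀ q ∈ K, ‖2 - q‖ < 1 := by
    intro q hq
    rw [hKdef, mem_closedBall, dist_eq_norm] at hq
    have h3 := min_le_right ε (1 - ‖q1 - 2‖)
    calc ‖2 - q‖ = ‖(q - q1) + (q1 - 2)‖ := by rw [← norm_neg]; ring_nf
      _ ≤ ‖q - q1‖ + ‖q1 - 2‖ := norm_add_le _ _
      _ < 1 := by linarith
  have hKc : IsCompact K := isCompact_closedBall _ _
  have hKne : K.Nonempty := ⟨q1, mem_closedBall_self hδ.le⟩
  set F : ℂ × ℂ × ℂ → ℂ := fun x =>
    (x.1 - 1) ^ N * (x.2.2 + (x.1 ^ 2 - 3 * x.1 + 1)) + PhiL a js x.1 x.2.1 with hFdef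
  have hFc : Continuous F := by
    rw [hFdef]
    exact Continuous.add (by fun_prop) (cont_Phi a js)
  set f : ℂ → ℂ := fun q => F (q, 0, 0) with hfdef
  have hfq : ∀ q : ℂ, f q = P.eval q := by
    intro q
    rw [hPe, hfdef, hFdef]
    simp only [hPhi0, zero_add]
  have hf0 : f q1 = 0 := by
    rw [hfq, hPe, h]
  have hfs : ∀ z ∈ sphere q1 δ, f z ≠ 0 := by
    intro z hz
    rw [hfq]
    exact hsph z hz
  have hfc : Continuous f := hFc.comp (by fun_prop)
  obtain ⟨x0, hx0, hmin⟩ := (isCompact_sphere q1 δ).exists_isMinOn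
    (NormedSpace.sphere_nonempty.mpr hδ.le) hfc.norm.continuousOn
  have hη : 0 < ‖f x0‖ := norm_pos_iff.2 (hfs x0 hx0)
  obtain ⟨d, hd, hdu⟩ := exists_unif hKc hFc.continuousOn (η := ‖f x0‖ / 2) (by positivity)
  obtain ⟨l1, hl1⟩ := exists_pow_lt (ρ := fun q => 2 - q) hKc hKne (by fun_prop) hK2 hd
  set k := max l1 2 with hk
  set w := wordL a (k + 1) js with hw
  have hwl : k + 2 ≤ w.length := by
    rw [hw, length_wordL, hjs]
    simp only [List.map_append, List.map_replicate, List.sum_append, List.sum_replicate,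
      smul_eq_mul]
    have h5 : 1 * (0 + 1 + (k + 1)) ≤ s * ((if (false : Bool) = true then a + 1 else 0) + 1 +
        (k + 1)) := by
      simp only [Bool.false_eq_true, if_false]
      exact Nat.mul_le_mul_right _ (by omega)
    omega
  set G : ℂ[X] := (X - 1) ^ N * ((2 - X) ^ w.length + (X ^ 2 - 3 * X + 1)) +
    PhiL a js X ((2 - X) ^ k) with hG
  have hGe : ∀ q : ℂ, G.eval q = F (q, (2 - q) ^ k, (2 - q) ^ w.length) := by
    intro q
    have hb : (PhiL a js (X : ℂ[X]) ((2 - X) ^ k)).eval q = PhiL a js q ((2 - q) ^ k) := by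
      rw [← coe_evalRingHom, Phi_map, coe_evalRingHom]
      simp
    rw [hG, hFdef]
    simp [hb]
  obtain ⟨q, hq, hgq⟩ := zero_of_close (g := fun q => G.eval q) hδ hη
    (G.differentiable.differentiableOn) hf0 (fun z hz => hmin hz) (fun z hz => by
      have h6 := hdu z hz _ _ (hl1 k (le_max_left _ _) z hz)
        (hl1 w.length ((le_max_left l1 2).trans (by omega)) z hz)
      rw [hGe]
      exact h6)
  have hq1 : q - 1 ≠ 0 := by
    intro h0
    have h7 := hK2 q hq
    have h8 : q = 1 := sub_eq_zero.1 h0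
    rw [h8] at h7
    norm_num at h7
  have hR : Rw w q = 0 := by
    have h9 := word_identity a k N js hlN q
    have h10 : (q - 1) ^ N * ((2 - q) ^ (wordL a (k + 1) js).length + (q ^ 2 - 3 * q + 1)) +
        PhiL a js q ((2 - q) ^ k) = 0 := by
      have h11 := hgq
      rw [hGe, hFdef] at h11
      exact h11
    rw [h10, mul_zero] at h9
    rcases mul_eq_zero.1 h9 with h12 | h12
    · rcases mul_eq_zero.1 h12 with h13 | h13
      · exact absurd h13 (pow_ne_zero _ hq1)
      · exact absurd h13 (pow_ne_zero _ (by norm_num))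
    · exact h12
  have hroot : IsChromaticRoot (RG w.get) q :=
    root_of_Rw (by omega) w.get (by rw [List.ofFn_get]; exact hR)
  refine ⟨q, ⟨RV w.length, inferInstance, RG w.get,
    threeConnected_word ha (by omega) (by omega),
    planar_word a (by omega) (by omega), hroot⟩, ?_⟩
  rw [← dist_eq_norm]
  exact lt_of_le_of_lt hq (hδlt.trans_le (min_le_left _ _))

/-- The points of the right lens with `|1 - (2 - q)^m| < |q - 1|^2` are limits of chromatic
roots. -/
theorem lens_subset {q : ℂ} (h1 : ‖q - 1‖ < 1) (h2 : ‖q - 2‖ < 1) {m : ℕ} (hm : 3 ≤ m)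
    (hlt : ‖1 - (2 - q) ^ m‖ < ‖q - 1‖ ^ 2) : q ∈ closure rootSet := by
  rw [Metric.mem_closure_iff]
  intro ε hε
  have hopen : IsOpen {z : ℂ | ‖z - 1‖ < 1 ∧ ‖z - 2‖ < 1 ∧ ‖1 - (2 - z) ^ m‖ < ‖z - 1‖ ^ 2} := by
    have o1 : IsOpen {z : ℂ | ‖z - 1‖ < 1} :=
      isOpen_lt (f := fun z : ℂ => ‖z - 1‖) (g := fun _ => (1 : ℝ)) (by fun_prop) (by fun_prop)
    have o2 : IsOpen {z : ℂ | ‖z - 2‖ < 1} :=
      isOpen_lt (f := fun z : ℂ => ‖z - 2‖) (g := fun _ => (1 : ℝ)) (by fun_prop) (by fun_prop)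
    have o3 : IsOpen {z : ℂ | ‖1 - (2 - z) ^ m‖ < ‖z - 1‖ ^ 2} :=
      isOpen_lt (f := fun z : ℂ => ‖1 - (2 - z) ^ m‖) (g := fun z => ‖z - 1‖ ^ 2)
        (by fun_prop) (by fun_prop)
    exact o1.inter (o2.inter o3)
  obtain ⟨r, hr, hball⟩ := Metric.isOpen_iff.1 hopen q ⟨h1, h2, hlt⟩
  have hbad : {z : ℂ | (Polynomial.X ^ 2 - 3 * Polynomial.X + 1 : Polynomial ℂ).IsRoot z}.Finite :=
    Polynomial.finite_setOfPred_isRoot (by
      intro h0
      have := congrArg (Polynomial.eval 0) h0
      simp at this)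
  have hbad2 : {z : ℂ | (SS (Polynomial.X : Polynomial ℂ) m).IsRoot z}.Finite :=
    Polynomial.finite_setOfPred_isRoot (by
      intro h0
      have h3 := congrArg (Polynomial.eval 1) h0
      rw [eval_SS, SS_one, Polynomial.eval_zero] at h3
      have : (m : ℂ) ≠ 0 := by exact_mod_cast (by omega : m ≠ 0)
      exact this h3)
  have hinf : (ball q (min r (ε / 3))).Infinite :=
    infinite_of_mem_nhds q (ball_mem_nhds q (lt_min hr (by linarith)))
  obtain ⟨q', hq', hnb⟩ := hinf.exists_notMem_finite (hbad.union hbad2)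
  have hq'r : q' ∈ ball q r := ball_subset_ball (min_le_left _ _) hq'
  have hq'ε : ‖q' - q‖ < ε / 3 := by
    have := mem_ball_iff_norm.1 (ball_subset_ball (min_le_right r (ε / 3)) hq')
    exact this
  obtain ⟨g1, g2, g3⟩ := hball hq'r
  have b1 : q' ^ 2 - 3 * q' + 1 ≠ 0 := by
    intro h0
    apply hnb
    left
    show Polynomial.IsRoot _ _
    rw [Polynomial.IsRoot.def]
    simpa using h0
  have b2 : SS q' m ≠ 0 := by
    intro h0
    apply hnb
    right
    show Polynomial.IsRoot _ _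
    rw [Polynomial.IsRoot.def, eval_SS]
    exact h0
  have b3 : q' ≠ 1 := by
    intro h0
    rw [h0, sub_self, norm_zero] at g3
    have := norm_nonneg (1 - (2 - (1 : ℂ)) ^ m)
    norm_num at g3
  obtain ⟨s, t, hs, ht, q1, hq1, hz⟩ := lens_zero (by omega) b3 g1 g3 b2 b1
    (ε := min (ε / 3) (1 - ‖q' - 2‖)) (lt_min (by linarith) (by linarith))
  have hq1a : ‖q1 - q'‖ < ε / 3 := hq1.trans_le (min_le_left _ _)
  have hq1b : ‖q1 - q'‖ < 1 - ‖q' - 2‖ := hq1.trans_le (min_le_right _ _)
  have hq12 : ‖q1 - 2‖ < 1 := by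
    have h3 : q1 - 2 = (q1 - q') + (q' - 2) := by ring
    rw [h3]
    refine (norm_add_le _ _).trans_lt ?_
    linarith
  obtain ⟨b, hb, hb1⟩ := lens_local hq12 hm hs ht hz (ε := ε / 3) (by linarith)
  refine ⟨b, hb, ?_⟩
  rw [dist_eq_norm]
  have h3 : q - b = -(q' - q) + -(q1 - q') + -(b - q1) := by ring
  rw [h3]
  refine (norm_add₃_le).trans_lt ?_
  rw [norm_neg, norm_neg, norm_neg]
  linarith

end CHR.Lens
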