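import Pool.Agent.CHR.RimPlanar
import Pool.Agent.CHR.RimConn
import Pool.Agent.H66Lens.Words

/-! The two-hub rims of the words `wordL a k bs` are 3-connected and planar. -/

namespace CHR.Lens

open CHR H37.Chrom

/-- every `false` is followed by a `true` -/
def GoodW (w : List Bool) : Prop := ∀ i : ℕ, w[i]? = some false → w[i + 1]? = some true

lemma goodW_append {u v : List Bool} (hu : GoodW u) (hv : GoodW v) : GoodW (u ++ v) := by
  intro i h
  by_cases hi : i < u.length
  · rw [List.getElem?_append_left hi] at h
    have h1 := hu i h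
    have h2 : i + 1 < u.length := by
      by_contra hc
      rw [List.getElem?_eq_none (by omega)] at h1
      cases h1
    rw [List.getElem?_append_left h2]
    exact h1
  · rw [List.getElem?_append_right (by omega)] at h
    rw [List.getElem?_append_right (by omega)]
    have h1 := hv _ h
    rwa [show i + 1 - u.length = i - u.length + 1 by omega]

lemma goodW_nil : GoodW [] := by
  intro i h
  simp at h

lemma goodW_tail {k : ℕ} (hk : 1 ≤ k) : GoodW (false :: List.replicate k true) := by
  intro i h
  rcases i with _ | i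
  · rw [List.getElem?_cons_succ, List.getElem?_replicate, if_pos (by omega)]
  · rw [List.getElem?_cons_succ, List.getElem?_replicate] at h
    split_ifs at h
    simp at h

lemma goodW_blk {a k : ℕ} (ha : 1 ≤ a) (hk : 1 ≤ k) (b : Bool) : GoodW (blkL a k b) := by
  cases b with
  | false => exact goodW_tail hk
  | true => exact goodW_append (goodW_tail ha) (goodW_tail hk)

lemma goodW_word {a k : ℕ} (ha : 1 ≤ a) (hk : 1 ≤ k) (bs : List Bool) :
    GoodW (wordL a k bs) := by
  induction bs with
  | nil => exact goodW_nil
  | cons b bs ih =>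
    rw [wordL_cons]
    exact goodW_append (goodW_blk ha hk b) ih

lemma blk_start (a k : ℕ) (b : Bool) : ∃ u, blkL a k b = false :: u ∧ k ≤ u.length := by
  cases b with
  | false => exact ⟨List.replicate k true, rfl, by simp⟩
  | true =>
    refine ⟨List.replicate a true ++ (false :: List.replicate k true), rfl, ?_⟩
    simp
    omega

lemma blk_end (a : ℕ) {k : ℕ} (hk : 3 ≤ k) (b : Bool) :
    ∃ v, blkL a k b = v ++ List.replicate 3 true := by
  have h : (false :: List.replicate k true)
      = (false :: List.replicate (k - 3) true) ++ List.replicate 3 true := by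
    rw [List.cons_append, List.replicate_append_replicate, show k - 3 + 3 = k by omega]
  cases b with
  | false => exact ⟨false :: List.replicate (k - 3) true, h⟩
  | true =>
    refine ⟨(false :: List.replicate a true) ++ (false :: List.replicate (k - 3) true), ?_⟩
    have h2 : blkL a k true = (false :: List.replicate a true) ++ (false :: List.replicate k true) :=
      rfl
    rw [h2, h, List.append_assoc]

lemma word_end (a : ℕ) {k : ℕ} (hk : 3 ≤ k) (bs : List Bool) (h : bs ≠ []) :
    ∃ v, wordL a k bs = v ++ List.replicate 3 true := by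
  induction bs with
  | nil => exact absurd rfl h
  | cons b bs ih =>
    rw [wordL_cons]
    by_cases hj : bs = []
    · obtain ⟨v, hv⟩ := blk_end a hk b
      refine ⟨v, ?_⟩
      rw [hj, hv]
      simp [wordL]
    · obtain ⟨v, hv⟩ := ih hj
      refine ⟨blkL a k b ++ v, ?_⟩
      rw [hv, List.append_assoc]

lemma word_three (a : ℕ) {k : ℕ} (hk : 3 ≤ k) {bs : List Bool} (hbs : 3 ≤ bs.length) :
    ∃ x y : ℕ, 0 < x ∧ x < y ∧ (wordL a k bs)[0]? = some false ∧ (wordL a k bs)[x]? = some false ∧
      (wordL a k bs)[y]? = some false ∧ 12 ≤ (wordL a k bs).length := by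
  match bs, hbs with
  | j1 :: j2 :: j3 :: js, _ =>
    obtain ⟨u1, h1, l1⟩ := blk_start a k j1
    obtain ⟨u2, h2, l2⟩ := blk_start a k j2
    obtain ⟨u3, h3, l3⟩ := blk_start a k j3
    rw [wordL_cons, wordL_cons, wordL_cons, h1, h2, h3]
    refine ⟨u1.length + 1, u1.length + 1 + (u2.length + 1), by omega, by omega, rfl, ?_, ?_, ?_⟩
    · rw [List.getElem?_append_right (by simp)]
      simp
    · rw [List.getElem?_append_right (by simp), List.getElem?_append_right (by simp)]
      simp
    · simp only [List.length_append, List.length_cons]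
      omega

lemma word_last (a : ℕ) {k : ℕ} (hk : 3 ≤ k) {bs : List Bool} (hbs : 3 ≤ bs.length)
    (i : Fin (wordL a k bs).length) (h : (wordL a k bs).length ≤ i.val + 3) :
    (wordL a k bs).get i = true := by
  obtain ⟨v, hv⟩ := word_end a hk bs (by rintro rfl; simp at hbs)
  have hi := i.2
  have h1 : (wordL a k bs)[i.val]? = some ((wordL a k bs).get i) := by
    rw [List.get_eq_getElem, List.getElem?_eq_getElem]
  have hl : (wordL a k bs).length = v.length + 3 := by rw [hv]; simp
  have h3 : ∀ m : ℕ, v.length ≤ m → m < v.length + 3 → (wordL a k bs)[m]? = some true := by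
    intro m hm hm2
    rw [hv, List.getElem?_append_right (by omega), List.getElem?_replicate, if_pos (by omega)]
  have h2 := h3 i.val (by omega) (by omega)
  rw [h2] at h1
  exact (Option.some.inj h1).symm

lemma word_get {w : List Bool} {i : ℕ} {b : Bool} (h : w[i]? = some b) :
    ∃ hi : i < w.length, w.get ⟨i, hi⟩ = b := by
  obtain ⟨hi, h2⟩ := List.getElem?_eq_some_iff.1 h
  exact ⟨hi, h2⟩

theorem planar_word (a : ℕ) {k : ℕ} (hk : 3 ≤ k) {bs : List Bool} (hbs : 3 ≤ bs.length) :
    Planar (RG (wordL a k bs).get) := by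
  obtain ⟨x, y, _, _, h0, _, _, hl⟩ := word_three a hk hbs
  refine planar_rim (by omega) _ ?_ (fun i hi => word_last a hk hbs i hi)
  intro i hi
  obtain ⟨_, h2⟩ := word_get h0
  have h3 : i = ⟨0, by omega⟩ := Fin.ext hi
  rw [h3]
  exact h2

theorem threeConnected_word {a k : ℕ} (ha : 1 ≤ a) (hk : 3 ≤ k) {bs : List Bool}
    (hbs : 3 ≤ bs.length) : ThreeConnected (RG (wordL a k bs).get) := by
  obtain ⟨x, y, hx, hxy, h0, h1, h2, hl⟩ := word_three a hk hbs
  obtain ⟨l0, e0⟩ := word_get h0
  obtain ⟨l1, e1⟩ := word_get h1
  obtain ⟨l2, e2⟩ := word_get h2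
  refine threeConnected_rim (by omega) _ ?_ ⟨0, l0⟩ ⟨x, l1⟩ ⟨y, l2⟩ ?_ ?_ ?_ e0 e1 e2
  · intro i j hij hi
    rcases hij with hij | ⟨hij, _⟩
    · have h3 : (wordL a k bs)[i.val]? = some false := by
        rw [← hi, List.get_eq_getElem, List.getElem?_eq_getElem]
      obtain ⟨l4, e4⟩ := word_get (goodW_word ha (by omega) bs _ h3)
      have h5 : j = ⟨i.val + 1, l4⟩ := Fin.ext hij
      rw [h5]
      exact e4
    · have h3 := word_last a hk hbs i (by omega)
      rw [h3] at hi
      cases hi
  · intro h
    have := congrArg Fin.val h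
    simp only at this
    omega
  · intro h
    have := congrArg Fin.val h
    simp only at this
    omega
  · intro h
    have := congrArg Fin.val h
    simp only at this
    omega

end CHR.Lens
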